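import Mathlib
import Pool.Agent.W522.T.Defs
import Pool.Agent.H204R3.GP.TateG

/-!
# Hodge-Tate operators and twists by characters
-/

namespace Pool.Agent.W522.K

open Module Pool.Agent.H204R3.SP Pool.Agent.H204R3.GP Pool.Agent.W522.U

variable {K : Type*} [Field K] {X : Type*} [AddCommGroup X] [Module K X]
  {Γ : Type*} [Group Γ]

/-- `H` is a nonempty set of Hodge-Tate operators `h = p - 1/2`, where `p` is (conjugate to) the
projection to the part of weight one of a Hodge-Tate decomposition: `h ^ 2 = 1/4` and `h` kills all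
Tate forms. -/
def HodgeTateOperators (R : Representation K Γ X) (χ : Γ →* K) (H : Set (Module.End K X)) : Prop :=
  H.Nonempty ∧ ∀ h ∈ H, h ∈ lieT R χ ∧ h * h = (1 / 4 : K) • (1 : Module.End K X)

/-- Characters all of whose Hodge-Tate weights are zero have finite order: if the nonzero map
`T : U → U'` of strongly irreducible subspaces is equivariant up to a character and commutes with
the Hodge-Tate operators, then it is equivariant for a subgroup of finite index. -/
def CharactersOfWeightZero (R : Representation K Γ X) (H : Set (Module.End K X)) : Prop :=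
  ∀ (U U' : Submodule K X), SI R U → SI R U' → ∀ (Δ : Subgroup Γ), Δ.FiniteIndex →
    ∀ (ψ : Γ → K) (T : X →ₗ[K] X), (∀ u ∈ U, T u ∈ U') → (∃ u ∈ U, T u ≠ 0) →
      (∀ g ∈ Δ, ∀ u ∈ U, T (R g u) = ψ g • R g (T u)) → (∀ h ∈ H, ∀ u ∈ U, T (h u) = h (T u)) →
      ∃ Δ' : Subgroup Γ, Δ'.FiniteIndex ∧ ∀ g ∈ Δ', ∀ u ∈ U, T (R g u) = R g (T u)

/-- Both Hodge-Tate weights occur: no Hodge-Tate operator acts by a scalar on a strongly irreducible
subspace of dimension at least two that is not self-dual. -/
def BothWeights (R : Representation K Γ X) (χ : Γ →* K) (H : Set (Module.End K X)) : Prop :=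
  ∀ U, SI R U → 2 ≤ finrank K U → ¬ Du R χ U U → ∀ h ∈ H, ¬ ∃ c : K, ∀ u ∈ U, h u = c • u

end Pool.Agent.W522.K
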