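import Mathlib
import Pool.Agent.W522.J.J3
import Pool.Agent.W522.K.Defs

/-!
# Twists by characters and operators that kill the Tate forms
-/

set_option linter.unusedSectionVars false

namespace Pool.Agent.W522.K

open Module Pool.Agent.H204R3.SP Pool.Agent.H204R3.GP Pool.Agent.W522.U
open Pool.Agent.H204R3.CM (prodMap prodMap_apply)
open Pool.Agent.W522.T (TwistFree2)

noncomputable section

variable {K : Type} [Field K] [CharZero K] {X : Type} [AddCommGroup X] [Module K X]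
  [FiniteDimensional K X] {Γ : Type} [Group Γ] {R : Representation K Γ X} {χ : Γ →* K}
  (ω : X →ₗ[K] X →ₗ[K] K) (hnd : ∀ u, (∀ v, ω u v = 0) → u = 0)
  (hωR : ∀ g u v, ω (R g u) (R g v) = χ g * ω u v) (hss : HasProj R)

include hnd hωR in
/-- Two operators with inverse multipliers: the operators that kill the Tate forms act on each of
them by a scalar. -/
theorem scalar_of_pair {S S' : X →ₗ[K] X} (hS' : S' ≠ 0) {D : Subgroup Γ} (hD : D.FiniteIndex)
    {θ θ' : Γ → K} (hθ : ∀ g ∈ D, θ g * θ' g = 1)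
    (h1 : ∀ g ∈ D, ∀ u, S (R g u) = θ g • R g (S u))
    (h2 : ∀ g ∈ D, ∀ u, S' (R g u) = θ' g • R g (S' u)) {x : Module.End K X}
    (hx : x ∈ lieT R χ) : ∃ c : K, ∀ u, S (x u) - x (S u) = c • S u := by
  have hT : IsTate R χ 2 (prodMap (fun l : Fin 2 => bil2 (if l = 0 then ω.comp S else
      ω.comp S'))) := by
    refine ⟨D, hD, fun g hg v => ?_⟩
    rw [prodMap_apply, prodMap_apply, Fin.prod_univ_two, Fin.prod_univ_two, bil2_apply, bil2_apply,
      bil2_apply, bil2_apply]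
    simp only [if_true, Fin.isValue, one_ne_zero, if_false, LinearMap.comp_apply]
    rw [h1 g hg, h2 g hg, map_smul, map_smul, LinearMap.smul_apply, LinearMap.smul_apply, hωR, hωR,
      smul_eq_mul, smul_eq_mul]
    linear_combination (χ g ^ 2 * ω (S (v (0, 0))) (v (0, 1)) * ω (S' (v (1, 0))) (v (1, 1))) *
      hθ g hg
  obtain ⟨c0, hc0⟩ : ∃ c, S' c ≠ 0 := by
    by_contra hcon
    push Not at hcon
    exact hS' (LinearMap.ext hcon)
  obtain ⟨d0, hd0⟩ : ∃ d, ω (S' c0) d ≠ 0 := by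
    by_contra hcon
    push Not at hcon
    exact hc0 (hnd _ hcon)
  have hsk := fun u w => lieT_sp R χ ω hωR hx u w
  have key : ∀ a b c d : X, (ω (S (x a)) b + ω (S a) (x b)) * ω (S' c) d +
      ω (S a) b * (ω (S' (x c)) d + ω (S' c) (x d)) = 0 := by
    intro a b c d
    have h3 := hx 2 _ hT (fun k => if k = (0, 0) then a else if k = (0, 1) then b else
      if k = (1, 0) then c else d)
    rw [Fintype.sum_prod_type, Fin.sum_univ_two, Fin.sum_univ_two, Fin.sum_univ_two] at h3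
    simp only [prodMap_apply, Fin.prod_univ_two, bil2_apply] at h3
    simp at h3
    linear_combination h3
  refine ⟨-(ω (S' (x c0)) d0 + ω (S' c0) (x d0)) / ω (S' c0) d0, fun a => ?_⟩
  rw [← sub_eq_zero]
  apply hnd
  intro b
  have h4 := key a b c0 d0
  have h5 := hsk (S a) b
  rw [map_sub, map_sub, map_smul, LinearMap.sub_apply, LinearMap.sub_apply, LinearMap.smul_apply,
    smul_eq_mul]
  field_simp
  linear_combination h4 - ω (S' c0) d0 * h5

include hnd hωR hss in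
/-- Operators that kill the Tate forms commute with twisted maps up to a scalar. -/
theorem twist_scalar {U U' : Submodule K X} (hU : SI R U) (hU' : SI R U') {Δ : Subgroup Γ}
    (hΔ : Δ.FiniteIndex) {T : X →ₗ[K] X} {ψ : Γ → K} (hTU : ∀ u ∈ U, T u ∈ U')
    (h0 : ∃ u ∈ U, T u ≠ 0) (hT : ∀ g ∈ Δ, ∀ u ∈ U, T (R g u) = ψ g • R g (T u))
    {x : Module.End K X} (hx : x ∈ lieT R χ) :
    (∀ u ∈ U, x u ∈ U) ∧ ∃ c : K, ∀ u ∈ U, T (x u) - x (T u) = c • T u := by
  obtain ⟨D1, hD1, h1⟩ := hU.2.1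
  obtain ⟨D2, hD2, h2⟩ := hU'.2.1
  obtain ⟨Δ', hΔ', T', hTU', ⟨v0, hv0, hv0'⟩, hT'⟩ := Tw.symm hU hU' ⟨Δ, hΔ, T, hTU, h0, hT⟩
  obtain ⟨p, hp1, hp2, hp3⟩ := hss D1 hD1 U h1
  obtain ⟨p', hp1', hp2', hp3'⟩ := hss D2 hD2 U' h2
  have hc := Pool.Agent.W839.OT.HTFam.comm R χ ω hnd hωR D1 hD1 p hp3 x hx
  have hst : ∀ u ∈ U, x u ∈ U := by
    intro u hu
    have h3 := hc u
    rw [hp2 u hu] at h3
    rw [h3]
    exact hp1 _
  refine ⟨hst, ?_⟩
  have hD : ((D1 ⊓ D2) ⊓ (Δ ⊓ Δ')).FiniteIndex := inferInstance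
  obtain ⟨c, hc'⟩ := scalar_of_pair ω hnd hωR (S := T.comp p) (S' := T'.comp p')
    (fun h => hv0' (by
      have h3 := congrArg (fun F : X →ₗ[K] X => F v0) h
      change T' (p' v0) = 0 at h3
      rwa [hp2' v0 hv0] at h3)) hD (θ := ψ) (θ' := fun g => (ψ g)⁻¹)
    (fun g hg => mul_inv_cancel₀ (tw_ne hU hΔ h0 hT hg.2.1 (h1 g hg.1.1)))
    (fun g hg u => by
      rw [LinearMap.comp_apply, LinearMap.comp_apply, hp3 g hg.1.1, hT g hg.2.1 _ (hp1 u)])
    (fun g hg u => by
      rw [LinearMap.comp_apply, LinearMap.comp_apply, hp3' g hg.1.2, hT' g hg.2.2 _ (hp1' u)]) hx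
  refine ⟨c, fun u hu => ?_⟩
  have h4 := hc' u
  rwa [LinearMap.comp_apply, LinearMap.comp_apply, hp2 u hu, hp2 _ (hst u hu)] at h4

include hnd hωR hss in
/-- If both Hodge-Tate weights occur there are no twists. -/
theorem twistFree_of_weights {H : Set (Module.End K X)} (hH : HodgeTateOperators R χ H)
    (hC : CharactersOfWeightZero R H) (hB : BothWeights R χ H) : TwistFree2 R χ := by
  rintro U U' hU hU' h2 hsd ψ ⟨Δ, hΔ, T, hTU, h0, hT⟩
  left
  have hinj := tw_inj hU hΔ h0 hT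
  have hcomm : ∀ h ∈ H, ∀ u ∈ U, T (h u) = h (T u) := by
    intro h hh
    obtain ⟨hx, hxx⟩ := hH.2 h hh
    have hxx' : ∀ v, h (h v) = (1 / 4 : K) • v := fun v =>
      congrArg (fun F : Module.End K X => F v) hxx
    obtain ⟨hst, c, hc⟩ := twist_scalar ω hnd hωR hss hU hU' hΔ hTU h0 hT hx
    have hc' : ∀ u ∈ U, T (h u) = h (T u) + c • T u := by
      intro u hu
      rw [← hc u hu]
      abel
    by_cases hc0 : c = 0
    · intro u hu
      rw [hc' u hu, hc0, zero_smul, add_zero]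
    · exfalso
      refine hB U hU h2 hsd h hh ⟨c / 2, fun u hu => ?_⟩
      have h3 := hc' _ (hst u hu)
      rw [hxx', hc' u hu, map_add, hxx', map_smul, map_smul] at h3
      have h4 : c • ((2 : K) • h (T u) + c • T u) = 0 := by
        have h5 : c • ((2 : K) • h (T u) + c • T u) =
            ((1 / 4 : K) • T u + c • h (T u) + c • (h (T u) + c • T u)) - (1 / 4 : K) • T u := by
          module
        rw [h5, ← h3, sub_self]
      have h5 : (2 : K) • h (T u) + c • T u = 0 := (smul_eq_zero.1 h4).resolve_left hc0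
      have h6 : T (h u - (c / 2) • u) = 0 := by
        rw [map_sub, map_smul, hc' u hu]
        have h7 : h (T u) + c • T u - (c / 2) • T u =
            (1 / 2 : K) • ((2 : K) • h (T u) + c • T u) := by
          module
        rw [h7, h5, smul_zero]
      exact sub_eq_zero.1 (hinj _ (U.sub_mem (hst u hu) (U.smul_mem _ hu)) h6)
  obtain ⟨Δ', hΔ', hT'⟩ := hC U U' hU hU' Δ hΔ ψ T hTU h0 hT hcomm
  exact ⟨Δ', hΔ', T, hTU, h0, fun g hg u hu => by rw [one_smul]; exact hT' g hg u hu⟩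

end

end Pool.Agent.W522.K
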